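import Pool.Agent.H679R2.Oct.Defs

/-!
# Path systems in graphs, and their reductions
-/

set_option autoImplicit false

namespace Pool.Agent.Q227.PSy

open Pool.Agent.H679R2

variable {V : Type}

/-- The path with vertex sequence `p` joins `u` and `v`. -/
def Joins (p : List V) (u v : V) : Prop :=
  (p.head? = some u ∧ p.getLast? = some v) ∨ (p.head? = some v ∧ p.getLast? = some u)

/-- `PP` is a path system in `G`: a collection of simple paths of `G` (given by their vertex
sequences) such that any two distinct vertices are joined by exactly one member. -/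
def IsPathSystem (G : SimpleGraph V) (PP : Set (List V)) : Prop :=
  (∀ p ∈ PP, p.IsChain G.Adj ∧ p.Nodup ∧ 2 ≤ p.length) ∧
    ∀ u v : V, u ≠ v → ∃! p, p ∈ PP ∧ Joins p u v

/-- `PP` is consistent: every subpath (with at least one edge) of a member is a member (a path
is not changed by reversing its vertex sequence). -/
def Consistent (PP : Set (List V)) : Prop :=
  ∀ p ∈ PP, ∀ q : List V, q <:+: p → 2 ≤ q.length → q ∈ PP ∨ q.reverse ∈ PP

/-- `PP` has a reduction: a partition of the vertex set into two nonempty sets `A` and `Aᶜ` such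
that the member joining two vertices of `A` stays in `A`, and the member joining two vertices
of `Aᶜ` stays in `Aᶜ`. -/
def HasReduction (PP : Set (List V)) : Prop :=
  ∃ A : Set V, A.Nonempty ∧ Aᶜ.Nonempty ∧ ∀ p ∈ PP, ∀ u v, Joins p u v →
    (u ∈ A → v ∈ A → ∀ w ∈ p, w ∈ A) ∧ (u ∈ Aᶜ → v ∈ Aᶜ → ∀ w ∈ p, w ∈ Aᶜ)

/-- `PP` is irreducible. -/
def Irreducible (PP : Set (List V)) : Prop := ¬ HasReduction PP

/-- Instances: a presented graph and the list of the vertex sequences of the paths. -/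
abbrev Inst : Type := (List ℕ × List (ℕ × ℕ)) × List (List ℕ)

/-- The collection of paths of an instance. -/
def paths (I : Inst) : Set (List {v : ℕ // v ∈ I.1.1}) := {p | p.map Subtype.val ∈ I.2}

/-- The instance is a graph with a consistent path system. -/
def Valid (I : Inst) : Prop :=
  (∀ p ∈ I.2, ∀ v ∈ p, v ∈ I.1.1) ∧ IsPathSystem (toGraph I.1) (paths I) ∧ Consistent (paths I)

theorem infix_three {q : List V} {x y z : V} (h : q <:+: [x, y, z]) (h2 : 2 ≤ q.length) :
    q = [x, y] ∨ q = [y, z] ∨ q = [x, y, z] := by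
  obtain ⟨s, t, h⟩ := h
  rcases s with _ | ⟨a, _ | ⟨b, s⟩⟩
  · rcases q with _ | ⟨a, _ | ⟨b, _ | ⟨c, q⟩⟩⟩ <;> simp_all
  · rcases q with _ | ⟨a, _ | ⟨b, _ | ⟨c, q⟩⟩⟩ <;> simp_all
  · have := congrArg List.length h
    simp at this
    omega

theorem infix_two {q : List V} {x y : V} (h : q <:+: [x, y]) (h2 : 2 ≤ q.length) :
    q = [x, y] := by
  obtain ⟨s, t, h⟩ := h
  have := congrArg List.length h
  simp only [List.length_append, List.length_cons, List.length_nil] at this
  have h3 : s = [] := List.length_eq_zero_iff.1 (by omega)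
  have h4 : t = [] := List.length_eq_zero_iff.1 (by omega)
  subst h3 h4
  simpa using h

/-! ### Systems with paths of length at most two -/

/-- The middle vertex of the path joining `a` and `b`, if it has length two. -/
def mid (K : List (ℕ × ℕ × ℕ)) (a b : ℕ) : Option ℕ :=
  ((K.filter (fun q => (decide (q.1 = a) && decide (q.2.1 = b)) ||
    (decide (q.1 = b) && decide (q.2.1 = a)))).map (fun q => q.2.2)).head?

/-- The path joining `a` and `b`. -/
def pth (K : List (ℕ × ℕ × ℕ)) (a b : ℕ) : List ℕ :=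
  (mid K a b).elim [a, b] (fun w => [a, w, b])

/-- The instance. -/
def inst (L : List ℕ) (K : List (ℕ × ℕ × ℕ)) : Inst :=
  ((L, (L ×ˢ L).filter (fun p => decide (p.1 < p.2) && (mid K p.1 p.2).isNone)),
    ((L ×ˢ L).filter (fun p => decide (p.1 < p.2))).map (fun p => pth K p.1 p.2))

/-- The conditions on the list of constraints. -/
structure Nice (L : List ℕ) (K : List (ℕ × ℕ × ℕ)) : Prop where
  mem : ∀ q ∈ K, q.1 ∈ L ∧ q.2.1 ∈ L ∧ q.2.2 ∈ L
  ne : ∀ q ∈ K, q.1 ≠ q.2.1 ∧ q.2.2 ≠ q.1 ∧ q.2.2 ≠ q.2.1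
  func : ∀ q ∈ K, ∀ q' ∈ K, ((q.1 = q'.1 ∧ q.2.1 = q'.2.1) ∨ (q.1 = q'.2.1 ∧ q.2.1 = q'.1)) →
    q.2.2 = q'.2.2
  nokey : ∀ q ∈ K, ∀ q' ∈ K, ¬ ((q.1 = q'.1 ∧ q.2.2 = q'.2.1) ∨ (q.2.2 = q'.1 ∧ q.1 = q'.2.1)) ∧
    ¬ ((q.2.1 = q'.1 ∧ q.2.2 = q'.2.1) ∨ (q.2.2 = q'.1 ∧ q.2.1 = q'.2.1))

theorem mid_symm (K : List (ℕ × ℕ × ℕ)) (a b : ℕ) : mid K a b = mid K b a := by
  unfold mid
  congr 3
  funext q
  rw [Bool.or_comm]

theorem mid_some {K : List (ℕ × ℕ × ℕ)} {a b w : ℕ} (h : mid K a b = some w) :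
    (a, b, w) ∈ K ∨ (b, a, w) ∈ K := by
  unfold mid at h
  have h1 := List.mem_of_mem_head? h
  rw [List.mem_map] at h1
  obtain ⟨⟨x, y, z⟩, h2, rfl⟩ := h1
  rw [List.mem_filter] at h2
  obtain ⟨h2, h3⟩ := h2
  simp only [Bool.or_eq_true, Bool.and_eq_true, decide_eq_true_eq] at h3
  rcases h3 with ⟨rfl, rfl⟩ | ⟨rfl, rfl⟩
  · exact Or.inl h2
  · exact Or.inr h2

theorem mid_of_mem {L : List ℕ} {K : List (ℕ × ℕ × ℕ)} (hK : Nice L K) {a b w : ℕ}
    (h : (a, b, w) ∈ K) : mid K a b = some w := by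
  rcases hm : mid K a b with _ | w'
  · exfalso
    unfold mid at hm
    rw [List.head?_eq_none_iff, List.map_eq_nil_iff, List.filter_eq_nil_iff] at hm
    exact hm _ h (by simp)
  · rcases mid_some hm with h1 | h1
    · have := hK.func _ h _ h1 (Or.inl ⟨rfl, rfl⟩)
      simp only at this
      rw [this]
    · have := hK.func _ h _ h1 (Or.inr ⟨rfl, rfl⟩)
      simp only at this
      rw [this]

theorem mid_none {L : List ℕ} {K : List (ℕ × ℕ × ℕ)} (hK : Nice L K) {a b w : ℕ}
    (h : (a, b, w) ∈ K ∨ (b, a, w) ∈ K) : mid K a w = none ∧ mid K b w = none := by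
  constructor
  · rcases hm : mid K a w with _ | w'
    · rfl
    · exfalso
      rcases h with h | h <;> rcases mid_some hm with h1 | h1
      · exact (hK.nokey _ h _ h1).1 (Or.inl ⟨rfl, rfl⟩)
      · exact (hK.nokey _ h _ h1).1 (Or.inr ⟨rfl, rfl⟩)
      · exact (hK.nokey _ h _ h1).2 (Or.inl ⟨rfl, rfl⟩)
      · exact (hK.nokey _ h _ h1).2 (Or.inr ⟨rfl, rfl⟩)
  · rcases hm : mid K b w with _ | w'
    · rfl
    · exfalso
      rcases h with h | h <;> rcases mid_some hm with h1 | h1
      · exact (hK.nokey _ h _ h1).2 (Or.inl ⟨rfl, rfl⟩)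
      · exact (hK.nokey _ h _ h1).2 (Or.inr ⟨rfl, rfl⟩)
      · exact (hK.nokey _ h _ h1).1 (Or.inl ⟨rfl, rfl⟩)
      · exact (hK.nokey _ h _ h1).1 (Or.inr ⟨rfl, rfl⟩)

theorem inst_adj {L : List ℕ} {K : List (ℕ × ℕ × ℕ)} (u v : {v : ℕ // v ∈ (inst L K).1.1}) :
    (toGraph (inst L K).1).Adj u v ↔ u ≠ v ∧ mid K u.1 v.1 = none := by
  obtain ⟨u, hu⟩ := u
  obtain ⟨v, hv⟩ := v
  have key : ∀ a b, a ∈ L → b ∈ L → ((a, b) ∈ (inst L K).1.2 ↔ a < b ∧ mid K a b = none) := by
    intro a b ha hb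
    change (a, b) ∈ (L ×ˢ L).filter _ ↔ _
    rw [List.mem_filter, List.mem_product]
    simp only [Bool.and_eq_true, decide_eq_true_eq, Option.isNone_iff_eq_none]
    tauto
  change (_ ∧ ((u, v) ∈ (inst L K).1.2 ∨ (v, u) ∈ (inst L K).1.2)) ↔ _
  rw [key u v hu hv, key v u hv hu, mid_symm K v u]
  have h1 : ((⟨u, hu⟩ : {v : ℕ // v ∈ (inst L K).1.1}) ≠ ⟨v, hv⟩) ↔ u ≠ v := by
    rw [ne_eq, Subtype.mk.injEq]
  rw [h1]
  simp only
  constructor
  · rintro ⟨h2, ⟨h3, h4⟩ | ⟨h3, h4⟩⟩
    · exact ⟨h2, h4⟩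
    · exact ⟨h2, h4⟩
  · rintro ⟨h2, h3⟩
    refine ⟨h2, ?_⟩
    rcases lt_or_gt_of_ne h2 with h4 | h4
    · exact Or.inl ⟨h4, h3⟩
    · exact Or.inr ⟨h4, h3⟩

theorem mem_inst2 {L : List ℕ} {K : List (ℕ × ℕ × ℕ)} {p : List ℕ} : p ∈ (inst L K).2 ↔
    ∃ a ∈ L, ∃ b ∈ L, a < b ∧ p = pth K a b := by
  change p ∈ ((L ×ˢ L).filter _).map _ ↔ _
  rw [List.mem_map]
  constructor
  · rintro ⟨⟨a, b⟩, h, rfl⟩
    rw [List.mem_filter, List.mem_product, decide_eq_true_eq] at h
    exact ⟨a, h.1.1, b, h.1.2, h.2, rfl⟩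
  · rintro ⟨a, ha, b, hb, hab, rfl⟩
    refine ⟨(a, b), ?_, rfl⟩
    rw [List.mem_filter, List.mem_product, decide_eq_true_eq]
    exact ⟨⟨ha, hb⟩, hab⟩

/-- The members of the path system. -/
theorem mem_paths {L : List ℕ} {K : List (ℕ × ℕ × ℕ)} (hK : Nice L K)
    {p : List {v : ℕ // v ∈ (inst L K).1.1}} : p ∈ paths (inst L K) ↔
    ∃ a b : {v : ℕ // v ∈ (inst L K).1.1}, a.1 < b.1 ∧
      ((mid K a.1 b.1 = none ∧ p = [a, b]) ∨
        ∃ w : {v : ℕ // v ∈ (inst L K).1.1}, mid K a.1 b.1 = some w.1 ∧ p = [a, w, b]) := by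
  change p.map Subtype.val ∈ (inst L K).2 ↔ _
  rw [mem_inst2]
  constructor
  · rintro ⟨a, ha, b, hb, hab, h⟩
    refine ⟨⟨a, ha⟩, ⟨b, hb⟩, hab, ?_⟩
    unfold pth at h
    rcases hm : mid K a b with _ | w
    · left
      rw [hm] at h
      refine ⟨rfl, ?_⟩
      refine List.map_injective_iff.2 Subtype.val_injective ?_
      rw [h]
      rfl
    · right
      rw [hm] at h
      have hw : w ∈ L := by
        rcases mid_some hm with h1 | h1
        · exact (hK.mem _ h1).2.2
        · exact (hK.mem _ h1).2.2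
      refine ⟨⟨w, hw⟩, rfl, ?_⟩
      refine List.map_injective_iff.2 Subtype.val_injective ?_
      rw [h]
      rfl
  · rintro ⟨a, b, hab, ⟨hm, rfl⟩ | ⟨w, hm, rfl⟩⟩
    · refine ⟨a.1, a.2, b.1, b.2, hab, ?_⟩
      unfold pth
      rw [hm]
      rfl
    · refine ⟨a.1, a.2, b.1, b.2, hab, ?_⟩
      unfold pth
      rw [hm]
      rfl

theorem valid_inst {L : List ℕ} {K : List (ℕ × ℕ × ℕ)} (hK : Nice L K) : Valid (inst L K) := by
  have hmidne : ∀ a b w, mid K a b = some w → w ≠ a ∧ w ≠ b := by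
    intro a b w h
    rcases mid_some h with h1 | h1
    · exact (hK.ne _ h1).2
    · exact (hK.ne _ h1).2.symm
  refine ⟨?_, ⟨?_, ?_⟩, ?_⟩
  · intro p hp v hv
    rw [mem_inst2] at hp
    obtain ⟨a, ha, b, hb, hab, rfl⟩ := hp
    change v ∈ L
    unfold pth at hv
    rcases hm : mid K a b with _ | w
    · rw [hm] at hv
      simp only [Option.elim_none, List.mem_cons, List.not_mem_nil, or_false] at hv
      rcases hv with rfl | rfl
      · exact ha
      · exact hb
    · rw [hm] at hv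
      simp only [Option.elim_some, List.mem_cons, List.not_mem_nil, or_false] at hv
      rcases hv with rfl | rfl | rfl
      · exact ha
      · rcases mid_some hm with h1 | h1
        · exact (hK.mem _ h1).2.2
        · exact (hK.mem _ h1).2.2
      · exact hb
  · intro p hp
    rw [mem_paths hK] at hp
    obtain ⟨a, b, hab, ⟨hm, rfl⟩ | ⟨w, hm, rfl⟩⟩ := hp
    · have hne : a ≠ b := fun h => by rw [h] at hab; exact lt_irrefl _ hab
      refine ⟨?_, ?_, ?_⟩
      · rw [List.isChain_pair, inst_adj]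
        exact ⟨hne, hm⟩
      · simp [hne]
      · simp
    · have hne : a ≠ b := fun h => by rw [h] at hab; exact lt_irrefl _ hab
      have h1 := hmidne _ _ _ hm
      have h2 : a ≠ w := fun h => h1.1 (congrArg Subtype.val h).symm
      have h3 : w ≠ b := fun h => h1.2 (congrArg Subtype.val h)
      obtain ⟨h4, h5⟩ := mid_none hK (mid_some hm)
      refine ⟨?_, ?_, ?_⟩
      · rw [List.isChain_cons_cons, List.isChain_pair, inst_adj, inst_adj]
        refine ⟨⟨h2, h4⟩, h3, ?_⟩
        rw [mid_symm]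
        exact h5
      · simp [h2, h3, hne]
      · simp
  · intro u v huv
    -- the ordered case
    have key : ∀ u v : {v : ℕ // v ∈ (inst L K).1.1}, u.1 < v.1 →
        ∃! p, p ∈ paths (inst L K) ∧ Joins p u v := by
      intro u v huv
      have huniq : ∀ (a b : {v : ℕ // v ∈ (inst L K).1.1}), a.1 < b.1 →
          ((a = u ∧ b = v) ∨ (a = v ∧ b = u)) → a = u ∧ b = v := by
        rintro a b hab (h | ⟨rfl, rfl⟩)
        · exact h
        · omega
      rcases hm : mid K u.1 v.1 with _ | w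
      · refine ⟨[u, v], ⟨(mem_paths hK).2 ⟨u, v, huv, Or.inl ⟨hm, rfl⟩⟩,
          Or.inl ⟨rfl, rfl⟩⟩, ?_⟩
        rintro p ⟨hp, hj⟩
        rw [mem_paths hK] at hp
        obtain ⟨a, b, hab, ⟨hm', rfl⟩ | ⟨w, hm', rfl⟩⟩ := hp
        · unfold Joins at hj
          simp only [List.head?_cons, List.getLast?_cons_cons, List.getLast?_singleton,
            Option.some.injEq] at hj
          obtain ⟨rfl, rfl⟩ := huniq a b hab hj
          rfl
        · unfold Joins at hj
          simp only [List.head?_cons, List.getLast?_cons_cons, List.getLast?_singleton,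
            Option.some.injEq] at hj
          obtain ⟨rfl, rfl⟩ := huniq a b hab hj
          rw [hm] at hm'
          exact absurd hm' (by simp)
      · have hw : w ∈ L := by
          rcases mid_some hm with h1 | h1
          · exact (hK.mem _ h1).2.2
          · exact (hK.mem _ h1).2.2
        refine ⟨[u, ⟨w, hw⟩, v], ⟨(mem_paths hK).2 ⟨u, v, huv, Or.inr ⟨⟨w, hw⟩, hm, rfl⟩⟩,
          Or.inl ⟨rfl, rfl⟩⟩, ?_⟩
        rintro p ⟨hp, hj⟩
        rw [mem_paths hK] at hp
        obtain ⟨a, b, hab, ⟨hm', rfl⟩ | ⟨w', hm', rfl⟩⟩ := hp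
        · unfold Joins at hj
          simp only [List.head?_cons, List.getLast?_cons_cons, List.getLast?_singleton,
            Option.some.injEq] at hj
          obtain ⟨rfl, rfl⟩ := huniq a b hab hj
          rw [hm] at hm'
          exact absurd hm' (by simp)
        · unfold Joins at hj
          simp only [List.head?_cons, List.getLast?_cons_cons, List.getLast?_singleton,
            Option.some.injEq] at hj
          obtain ⟨rfl, rfl⟩ := huniq a b hab hj
          rw [hm] at hm'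
          simp only [Option.some.injEq] at hm'
          have : w' = ⟨w, hw⟩ := Subtype.ext hm'.symm
          rw [this]
    rcases lt_or_gt_of_ne (fun h => huv (Subtype.ext h)) with h | h
    · exact key u v h
    · obtain ⟨p, ⟨hp1, hp2⟩, hp3⟩ := key v u h
      exact ⟨p, ⟨hp1, hp2.symm⟩, fun q hq => hp3 q ⟨hq.1, hq.2.symm⟩⟩
  · intro p hp q hq hl
    have hp0 := hp
    rw [mem_paths hK] at hp
    obtain ⟨a, b, hab, ⟨hm, rfl⟩ | ⟨w, hm, rfl⟩⟩ := hp
    · rw [infix_two hq hl]
      exact Or.inl hp0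
    · obtain ⟨h4, h5⟩ := mid_none hK (mid_some hm)
      have h1 := hmidne _ _ _ hm
      rcases infix_three hq hl with rfl | rfl | rfl
      · rcases lt_or_gt_of_ne h1.1 with h | h
        · right
          exact (mem_paths hK).2 ⟨w, a, h, Or.inl ⟨by rw [mid_symm]; exact h4, rfl⟩⟩
        · left
          exact (mem_paths hK).2 ⟨a, w, h, Or.inl ⟨h4, rfl⟩⟩
      · rcases lt_or_gt_of_ne h1.2 with h | h
        · left
          exact (mem_paths hK).2 ⟨w, b, h, Or.inl ⟨by rw [mid_symm]; exact h5, rfl⟩⟩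
        · right
          exact (mem_paths hK).2 ⟨b, w, h, Or.inl ⟨h5, rfl⟩⟩
      · exact Or.inl hp0

/-- The reductions are the non-constant solutions of the constraints. -/
theorem reduction_iff {L : List ℕ} {K : List (ℕ × ℕ × ℕ)} (hK : Nice L K) :
    HasReduction (paths (inst L K)) ↔ ∃ f : ℕ → Bool, (∃ a ∈ L, ∃ b ∈ L, f a ≠ f b) ∧
      ∀ q ∈ K, f q.1 = f q.2.1 → f q.2.2 = f q.1 := by
  classical
  constructor
  · rintro ⟨A, ⟨a, ha⟩, ⟨b, hb⟩, hA⟩
    let f : ℕ → Bool := fun v => decide (∃ h : v ∈ L, (⟨v, h⟩ : {v : ℕ // v ∈ (inst L K).1.1}) ∈ A)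
    have hf : ∀ (v : {v : ℕ // v ∈ (inst L K).1.1}), f v.1 = true ↔ v ∈ A := by
      intro v
      simp only [f, decide_eq_true_eq]
      exact ⟨fun ⟨_, h⟩ => h, fun h => ⟨v.2, h⟩⟩
    refine ⟨f, ⟨a.1, a.2, b.1, b.2, ?_⟩, ?_⟩
    · intro h
      have h1 := (hf a).2 ha
      rw [h] at h1
      exact hb ((hf b).1 h1)
    · -- the ordered case
      have key : ∀ x y w : {v : ℕ // v ∈ (inst L K).1.1}, x.1 < y.1 →
          mid K x.1 y.1 = some w.1 → f x.1 = f y.1 → f w.1 = f x.1 := by
        intro x y w hxy hm he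
        have hp : [x, w, y] ∈ paths (inst L K) :=
          (mem_paths hK).2 ⟨x, y, hxy, Or.inr ⟨w, hm, rfl⟩⟩
        have h1 := hA _ hp x y (Or.inl ⟨rfl, rfl⟩)
        by_cases hx : x ∈ A
        · have hy : y ∈ A := by
            rw [← hf, ← he, hf]
            exact hx
          have hw := h1.1 hx hy w (by simp)
          rw [(hf w).2 hw, (hf x).2 hx]
        · have hy : y ∉ A := by
            rw [← hf, ← he, hf]
            exact hx
          have hw : w ∉ A := h1.2 hx hy w (by simp)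
          rw [← hf] at hw hx
          rw [Bool.not_eq_true] at hw hx
          rw [hw, hx]
      rintro ⟨x, y, w⟩ hq he
      simp only at he ⊢
      obtain ⟨hx, hy, hw⟩ := hK.mem _ hq
      have hm := mid_of_mem hK hq
      have hne := (hK.ne _ hq).1
      simp only at hx hy hw hne
      rcases lt_or_gt_of_ne hne with h | h
      · exact key ⟨x, hx⟩ ⟨y, hy⟩ ⟨w, hw⟩ h hm he
      · rw [he]
        exact key ⟨y, hy⟩ ⟨x, hx⟩ ⟨w, hw⟩ h (by rw [mid_symm]; exact hm) he.symm
  · rintro ⟨f, ⟨a, ha, b, hb, hab⟩, hf⟩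
    have hmid : ∀ x y w, mid K x y = some w → f x = f y → f w = f x := by
      intro x y w hm he
      rcases mid_some hm with h | h
      · exact hf _ h he
      · exact (hf _ h he.symm).trans he.symm
    refine ⟨{v | f v.1 = f a}, ⟨⟨a, ha⟩, rfl⟩, ⟨⟨b, hb⟩, fun h => hab (Eq.symm h)⟩, ?_⟩
    intro p hp u v hj
    rw [mem_paths hK] at hp
    have hbool : ∀ x y z : Bool, x ≠ z → y ≠ z → x = y := by decide
    obtain ⟨x, y, hxy, ⟨hm, rfl⟩ | ⟨w, hm, rfl⟩⟩ := hp
    · unfold Joins at hj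
      simp only [List.head?_cons, List.getLast?_cons_cons, List.getLast?_singleton,
        Option.some.injEq] at hj
      constructor
      · intro hu hv z hz
        simp only [List.mem_cons, List.not_mem_nil, or_false] at hz
        rcases hj with ⟨rfl, rfl⟩ | ⟨rfl, rfl⟩ <;> rcases hz with rfl | rfl <;> assumption
      · intro hu hv z hz
        simp only [List.mem_cons, List.not_mem_nil, or_false] at hz
        rcases hj with ⟨rfl, rfl⟩ | ⟨rfl, rfl⟩ <;> rcases hz with rfl | rfl <;> assumption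
    · unfold Joins at hj
      simp only [List.head?_cons, List.getLast?_cons_cons, List.getLast?_singleton,
        Option.some.injEq] at hj
      have hxyw : (f x.1 = f a → f y.1 = f a → f w.1 = f a) ∧
          (f x.1 ≠ f a → f y.1 ≠ f a → f w.1 ≠ f a) := by
        constructor
        · intro h1 h2
          rw [hmid _ _ _ hm (h1.trans h2.symm), h1]
        · intro h1 h2
          rw [hmid _ _ _ hm (hbool _ _ _ h1 h2)]
          exact h1
      constructor
      · intro hu hv z hz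
        simp only [List.mem_cons, List.not_mem_nil, or_false] at hz
        rcases hj with ⟨rfl, rfl⟩ | ⟨rfl, rfl⟩
        · rcases hz with rfl | rfl | rfl
          · exact hu
          · exact hxyw.1 hu hv
          · exact hv
        · rcases hz with rfl | rfl | rfl
          · exact hv
          · exact hxyw.1 hv hu
          · exact hu
      · intro hu hv z hz
        simp only [List.mem_cons, List.not_mem_nil, or_false] at hz
        rcases hj with ⟨rfl, rfl⟩ | ⟨rfl, rfl⟩
        · rcases hz with rfl | rfl | rfl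
          · exact hu
          · exact hxyw.2 hu hv
          · exact hv
        · rcases hz with rfl | rfl | rfl
          · exact hv
          · exact hxyw.2 hv hu
          · exact hu

end Pool.Agent.Q227.PSy
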