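import Pool.Agent.Q227.PSy.Red
import Pool.Agent.H671R2.PolyAuto

/-!
# The reduction is computed in polynomial time
-/

set_option autoImplicit false

namespace Pool.Agent.Q227.PSy

open Pool.Agent.NPC Pool.Agent.Q227.TF

theorem lenU : UPoly (fun φ : F3 => φ.length) := UPoly.length NPC.Poly.id

theorem occ_poly : NPC.Poly occ := by
  unfold occ
  fun_prop

theorem cl_poly : NPC.Poly cl := by
  unfold cl
  fun_prop

theorem opp_poly : NPC.Poly opp := by
  have h := occ_poly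
  unfold opp
  fun_prop

theorem aux_poly : NPC.Poly (fun φ : F3 => aux φ.length) := by
  have h1 : NPC.Poly (fun φ : F3 => List.range (4 * φ.length + 5)) :=
    (UPoly.add (UPoly.mul (UPoly.const 4) lenU) (UPoly.const 5)).range
  have h2 : NPC.Poly (fun φ : F3 => List.range (4 * φ.length + 3)) :=
    (UPoly.add (UPoly.mul (UPoly.const 4) lenU) (UPoly.const 3)).range
  have h3 : NPC.Poly (fun φ : F3 => List.range (4 * φ.length + 2)) :=
    (UPoly.add (UPoly.mul (UPoly.const 4) lenU) (UPoly.const 2)).range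
  unfold aux
  fun_prop

theorem KL_poly : NPC.Poly KL := by
  have h1 := aux_poly
  have h2 := cl_poly
  have h3 := opp_poly
  unfold KL
  fun_prop

theorem VS_poly : NPC.Poly VS :=
  (UPoly.add (UPoly.mul (UPoly.const 12) lenU) (UPoly.const 17)).range

theorem mid_poly : NPC.Poly (fun p : F3 × ℕ × ℕ => mid (KL p.1) p.2.1 p.2.2) := by
  have h := KL_poly.comp (f := fun p : F3 × ℕ × ℕ => p.1) (by fun_prop)
  unfold mid
  fun_prop

theorem red_poly : NPC.Poly red := by
  have h1 := VS_poly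
  have h2 : NPC.Poly (fun p : F3 × (ℕ × ℕ) => mid (KL p.1) p.2.1 p.2.2) := mid_poly
  have h3 : NPC.Poly (fun p : F3 × (ℕ × ℕ) => (mid (KL p.1) p.2.1 p.2.2).isNone) :=
    (NPC.Poly.optElim (o := fun p : F3 × (ℕ × ℕ) => mid (KL p.1) p.2.1 p.2.2)
      (g := fun _ => true) (h := fun _ _ => false) h2 (NPC.Poly.const _)
      (NPC.Poly.const _)).congr fun p => by
        cases mid (KL p.1) p.2.1 p.2.2 <;> rfl
  have h4 : NPC.Poly (fun p : F3 × (ℕ × ℕ) => pth (KL p.1) p.2.1 p.2.2) := by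
    unfold pth
    fun_prop
  have h5 : NPC.Poly (fun φ : F3 => VS φ ×ˢ VS φ) := by fun_prop
  refine NPC.Poly.pair (NPC.Poly.pair h1 ?_) ?_
  · exact NPC.Poly.filter (l := fun φ => VS φ ×ˢ VS φ) (p := fun (φ : F3) (p : ℕ × ℕ) =>
      decide (p.1 < p.2) && (mid (KL φ) p.1 p.2).isNone) h5 (NPC.Poly.and (by fun_prop) h3)
  · refine NPC.Poly.map (l := fun φ => (VS φ ×ˢ VS φ).filter (fun p => decide (p.1 < p.2)))
      (F := fun (φ : F3) (p : ℕ × ℕ) => pth (KL φ) p.1 p.2) ?_ h4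
    exact NPC.Poly.filter (l := fun φ => VS φ ×ˢ VS φ) (p := fun (φ : F3) (p : ℕ × ℕ) =>
      decide (p.1 < p.2)) h5 (by fun_prop)

end Pool.Agent.Q227.PSy
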