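import Pool.Agent.Q227.PSy.Defs
import Pool.Agent.NPC.Sat2
import Pool.Agent.Q227.TF.Red

/-!
# 3-satisfiability as a reduction of a path system
-/

set_option autoImplicit false

namespace Pool.Agent.Q227.PSy

open Pool.Agent.NPC Pool.Agent.Q227.TF

/-- The list of the occurrences of literals: the number of the clause, the vertex, the literal. -/
def occ (φ : F3) : List (ℕ × ℕ × Lit ℕ) :=
  φ.zipIdx.flatMap fun q => [(q.2, 2 + 12 * q.2, q.1.1), (q.2, 5 + 12 * q.2, q.1.2.1),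
    (q.2, 8 + 12 * q.2, q.1.2.2)]

/-- Constraints inside the clauses. -/
def cl (φ : F3) : List (ℕ × ℕ × ℕ) :=
  φ.zipIdx.flatMap fun q => [(2 + 12 * q.2, 11 + 12 * q.2, 0),
    (5 + 12 * q.2, 8 + 12 * q.2, 11 + 12 * q.2)]

/-- Constraints between occurrences of opposite literals. -/
def opp (φ : F3) : List (ℕ × ℕ × ℕ) :=
  ((occ φ ×ˢ occ φ).filter fun r => !decide (r.1.1 = r.2.1) &&
    (decide (r.1.2.2.2 = r.2.2.2.2) && !decide (r.1.2.2.1 = r.2.2.2.1))).map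
      fun r => (r.1.2.1, r.2.2.1, 1)

/-- The auxiliary constraints. -/
def aux (m : ℕ) : List (ℕ × ℕ × ℕ) :=
  ((List.range (4 * m + 5)).flatMap fun y =>
    [(3 + 3 * y, 2 + 3 * y, 0), (3 + 3 * y, 1, 4 + 3 * y), (4 + 3 * y, 0, 2 + 3 * y)]) ++
  (((List.range (4 * m + 3)).map fun y => (3 + 3 * y, 7 + 3 * y, 9 + 3 * y)) ++
  (((List.range (4 * m + 2)).map fun y => (3 + 3 * y, 10 + 3 * y, 13 + 3 * y)) ++
  [(12 * m + 2, 12 * m + 11, 3), (12 * m + 2, 12 * m + 14, 6), (12 * m + 5, 12 * m + 11, 4),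
    (12 * m + 5, 12 * m + 14, 7), (12 * m + 8, 12 * m + 11, 10)]))

/-- All constraints. -/
def KL (φ : F3) : List (ℕ × ℕ × ℕ) := aux φ.length ++ (cl φ ++ opp φ)

/-- The vertices. -/
def VS (φ : F3) : List ℕ := List.range (12 * φ.length + 17)

/-- The arithmetic form of the constraints. -/
def KW (m a b w : ℕ) : Prop :=
  (∃ y, y < 4 * m + 5 ∧ a = 3 + 3 * y ∧ b = 2 + 3 * y ∧ w = 0) ∨
  (∃ y, y < 4 * m + 5 ∧ a = 3 + 3 * y ∧ b = 1 ∧ w = 4 + 3 * y) ∨
  (∃ y, y < 4 * m + 5 ∧ a = 4 + 3 * y ∧ b = 0 ∧ w = 2 + 3 * y) ∨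
  (∃ y, y < 4 * m + 3 ∧ a = 3 + 3 * y ∧ b = 7 + 3 * y ∧ w = 9 + 3 * y) ∨
  (∃ y, y < 4 * m + 2 ∧ a = 3 + 3 * y ∧ b = 10 + 3 * y ∧ w = 13 + 3 * y) ∨
  (a = 12 * m + 2 ∧ b = 12 * m + 11 ∧ w = 3) ∨
  (a = 12 * m + 2 ∧ b = 12 * m + 14 ∧ w = 6) ∨
  (a = 12 * m + 5 ∧ b = 12 * m + 11 ∧ w = 4) ∨
  (a = 12 * m + 5 ∧ b = 12 * m + 14 ∧ w = 7) ∨
  (a = 12 * m + 8 ∧ b = 12 * m + 11 ∧ w = 10) ∨
  (∃ i, i < m ∧ a = 2 + 12 * i ∧ b = 11 + 12 * i ∧ w = 0) ∨
  (∃ i, i < m ∧ a = 5 + 12 * i ∧ b = 8 + 12 * i ∧ w = 11 + 12 * i) ∨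
  (∃ i j t s, i < m ∧ j < m ∧ i ≠ j ∧ t < 3 ∧ s < 3 ∧ a = 2 + 12 * i + 3 * t ∧
    b = 2 + 12 * j + 3 * s ∧ w = 1)

theorem mem_occ {φ : F3} {i v : ℕ} {l : Lit ℕ} : (i, v, l) ∈ occ φ ↔ ∃ c, φ[i]? = some c ∧
    ((v = 2 + 12 * i ∧ l = c.1) ∨ (v = 5 + 12 * i ∧ l = c.2.1) ∨
      (v = 8 + 12 * i ∧ l = c.2.2)) := by
  unfold occ
  rw [List.mem_flatMap]
  constructor
  · rintro ⟨⟨c, j⟩, hq, h⟩
    rw [List.mem_zipIdx_iff_getElem?] at hq
    simp only [List.mem_cons, Prod.mk.injEq, List.not_mem_nil, or_false] at h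
    rcases h with ⟨rfl, h1, h2⟩ | ⟨rfl, h1, h2⟩ | ⟨rfl, h1, h2⟩
    · exact ⟨c, hq, Or.inl ⟨h1, h2⟩⟩
    · exact ⟨c, hq, Or.inr (Or.inl ⟨h1, h2⟩)⟩
    · exact ⟨c, hq, Or.inr (Or.inr ⟨h1, h2⟩)⟩
  · rintro ⟨c, hq, h⟩
    refine ⟨(c, i), List.mem_zipIdx_iff_getElem?.2 hq, ?_⟩
    simp only [List.mem_cons, Prod.mk.injEq, List.not_mem_nil, or_false]
    tauto

theorem mem_cl {φ : F3} {q : ℕ × ℕ × ℕ} : q ∈ cl φ ↔ ∃ i < φ.length,
    (q = (2 + 12 * i, 11 + 12 * i, 0) ∨ q = (5 + 12 * i, 8 + 12 * i, 11 + 12 * i)) := by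
  unfold cl
  rw [List.mem_flatMap]
  constructor
  · rintro ⟨⟨c, j⟩, hq, h⟩
    rw [List.mem_zipIdx_iff_getElem?] at hq
    simp only [List.mem_cons, List.not_mem_nil, or_false] at h
    exact ⟨j, (List.getElem?_eq_some_iff.1 hq).1, h⟩
  · rintro ⟨i, hi, h⟩
    refine ⟨(φ[i], i), List.mem_zipIdx_iff_getElem?.2 (List.getElem?_eq_getElem hi), ?_⟩
    simp only [List.mem_cons, List.not_mem_nil, or_false]
    exact h

theorem mem_opp {φ : F3} {q : ℕ × ℕ × ℕ} : q ∈ opp φ ↔ ∃ i j v w l l', (i, v, l) ∈ occ φ ∧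
    (j, w, l') ∈ occ φ ∧ i ≠ j ∧ l.2 = l'.2 ∧ l.1 ≠ l'.1 ∧ q = (v, w, 1) := by
  unfold opp
  rw [List.mem_map]
  constructor
  · rintro ⟨⟨⟨i, v, l⟩, ⟨j, w, l'⟩⟩, h, rfl⟩
    rw [List.mem_filter, List.mem_product] at h
    simp only [Bool.and_eq_true, decide_eq_true_eq, Bool.not_eq_true',
      decide_eq_false_iff_not] at h
    exact ⟨i, j, v, w, l, l', h.1.1, h.1.2, h.2.1, h.2.2.1, h.2.2.2, rfl⟩
  · rintro ⟨i, j, v, w, l, l', h1, h2, h3, h4, h5, rfl⟩
    refine ⟨((i, v, l), (j, w, l')), ?_, rfl⟩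
    rw [List.mem_filter, List.mem_product]
    simp only [Bool.and_eq_true, decide_eq_true_eq, Bool.not_eq_true',
      decide_eq_false_iff_not]
    exact ⟨⟨h1, h2⟩, h3, h4, h5⟩

theorem mem_aux {m : ℕ} {q : ℕ × ℕ × ℕ} : q ∈ aux m ↔
    (∃ y < 4 * m + 5, q = (3 + 3 * y, 2 + 3 * y, 0) ∨ q = (3 + 3 * y, 1, 4 + 3 * y) ∨
      q = (4 + 3 * y, 0, 2 + 3 * y)) ∨
    (∃ y < 4 * m + 3, q = (3 + 3 * y, 7 + 3 * y, 9 + 3 * y)) ∨
    (∃ y < 4 * m + 2, q = (3 + 3 * y, 10 + 3 * y, 13 + 3 * y)) ∨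
    (q = (12 * m + 2, 12 * m + 11, 3) ∨ q = (12 * m + 2, 12 * m + 14, 6) ∨
      q = (12 * m + 5, 12 * m + 11, 4) ∨ q = (12 * m + 5, 12 * m + 14, 7) ∨
      q = (12 * m + 8, 12 * m + 11, 10)) := by
  unfold aux
  simp only [List.mem_append, List.mem_flatMap, List.mem_map, List.mem_range, List.mem_cons,
    List.not_mem_nil, or_false]
  refine or_congr Iff.rfl (or_congr ?_ (or_congr ?_ Iff.rfl))
  · exact exists_congr fun y => and_congr Iff.rfl eq_comm
  · exact exists_congr fun y => and_congr Iff.rfl eq_comm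

theorem KL_KW {φ : F3} {a b w : ℕ} (h : (a, b, w) ∈ KL φ) : KW φ.length a b w := by
  unfold KL at h
  rw [List.mem_append, List.mem_append, mem_aux, mem_cl, mem_opp] at h
  simp only [Prod.mk.injEq] at h
  unfold KW
  rcases h with (⟨y, hy, h | h | h⟩ | ⟨y, hy, h⟩ | ⟨y, hy, h⟩ | h | h | h | h | h) |
    ⟨i, hi, h | h⟩ | ⟨i, j, v, v', l, l', h1, h2, h3, h4, h5, rfl, rfl, rfl⟩
  · exact Or.inl ⟨y, hy, h⟩
  · exact Or.inr (Or.inl ⟨y, hy, h⟩)
  · exact Or.inr (Or.inr (Or.inl ⟨y, hy, h⟩))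
  · exact Or.inr (Or.inr (Or.inr (Or.inl ⟨y, hy, h⟩)))
  · exact Or.inr (Or.inr (Or.inr (Or.inr (Or.inl ⟨y, hy, h⟩))))
  · exact Or.inr (Or.inr (Or.inr (Or.inr (Or.inr (Or.inl h)))))
  · exact Or.inr (Or.inr (Or.inr (Or.inr (Or.inr (Or.inr (Or.inl h))))))
  · exact Or.inr (Or.inr (Or.inr (Or.inr (Or.inr (Or.inr (Or.inr (Or.inl h)))))))
  · exact Or.inr (Or.inr (Or.inr (Or.inr (Or.inr (Or.inr (Or.inr (Or.inr (Or.inl h))))))))
  · exact Or.inr (Or.inr (Or.inr (Or.inr (Or.inr (Or.inr (Or.inr (Or.inr (Or.inr (Or.inl h)))))))))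
  · exact Or.inr (Or.inr (Or.inr (Or.inr (Or.inr (Or.inr (Or.inr (Or.inr (Or.inr (Or.inr
      (Or.inl ⟨i, hi, h⟩))))))))))
  · exact Or.inr (Or.inr (Or.inr (Or.inr (Or.inr (Or.inr (Or.inr (Or.inr (Or.inr (Or.inr
      (Or.inr (Or.inl ⟨i, hi, h⟩)))))))))))
  · refine Or.inr (Or.inr (Or.inr (Or.inr (Or.inr (Or.inr (Or.inr (Or.inr (Or.inr (Or.inr
      (Or.inr (Or.inr ?_)))))))))))
    rw [mem_occ] at h1 h2
    obtain ⟨c, hc, h1⟩ := h1
    obtain ⟨c', hc', h2⟩ := h2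
    have k1 := (List.getElem?_eq_some_iff.1 hc).1
    have k2 := (List.getElem?_eq_some_iff.1 hc').1
    have e1 : ∃ t < 3, a = 2 + 12 * i + 3 * t := by
      rcases h1 with h | h | h
      · exact ⟨0, by omega, by omega⟩
      · exact ⟨1, by omega, by omega⟩
      · exact ⟨2, by omega, by omega⟩
    have e2 : ∃ t < 3, b = 2 + 12 * j + 3 * t := by
      rcases h2 with h | h | h
      · exact ⟨0, by omega, by omega⟩
      · exact ⟨1, by omega, by omega⟩
      · exact ⟨2, by omega, by omega⟩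
    obtain ⟨t, ht, e1⟩ := e1
    obtain ⟨s, hs, e2⟩ := e2
    exact ⟨i, j, t, s, k1, k2, h3, ht, hs, e1, e2, rfl⟩

theorem KW_mem {m a b w : ℕ} (hm : 0 < m) (h : KW m a b w) : (a < 12 * m + 17 ∧
    b < 12 * m + 17 ∧ w < 12 * m + 17) ∧ a ≠ b ∧ w ≠ a ∧ w ≠ b := by
  rcases h with ⟨y, h⟩ | ⟨y, h⟩ | ⟨y, h⟩ | ⟨y, h⟩ | ⟨y, h⟩ | h | h | h | h | h | ⟨i, h⟩ | ⟨i, h⟩ |
    ⟨i, j, t, s, h⟩ <;> omega

set_option maxHeartbeats 16000000 in
theorem KW_func {m a b w a' b' w' : ℕ} (h : KW m a b w) (h' : KW m a' b' w')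
    (he : (a = a' ∧ b = b') ∨ (a = b' ∧ b = a')) : w = w' := by
  rcases h with ⟨y, h⟩ | ⟨y, h⟩ | ⟨y, h⟩ | ⟨y, h⟩ | ⟨y, h⟩ | h | h | h | h | h | ⟨i, h⟩ | ⟨i, h⟩ |
    ⟨i, j, t, s, h⟩ <;> rcases h' with ⟨y', h'⟩ | ⟨y', h'⟩ | ⟨y', h'⟩ | ⟨y', h'⟩ | ⟨y', h'⟩ | h' |
    h' | h' | h' | h' | ⟨i', h'⟩ | ⟨i', h'⟩ | ⟨i', j', t', s', h'⟩ <;> omega

set_option maxHeartbeats 16000000 in
theorem KW_nokey {m a b w a' b' w' : ℕ} (hm : 0 < m) (h : KW m a b w) (h' : KW m a' b' w') :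
    ¬ ((a = a' ∧ w = b') ∨ (w = a' ∧ a = b')) ∧ ¬ ((b = a' ∧ w = b') ∨ (w = a' ∧ b = b')) := by
  rcases h with ⟨y, h⟩ | ⟨y, h⟩ | ⟨y, h⟩ | ⟨y, h⟩ | ⟨y, h⟩ | h | h | h | h | h | ⟨i, h⟩ | ⟨i, h⟩ |
    ⟨i, j, t, s, h⟩ <;> rcases h' with ⟨y', h'⟩ | ⟨y', h'⟩ | ⟨y', h'⟩ | ⟨y', h'⟩ | ⟨y', h'⟩ | h' |
    h' | h' | h' | h' | ⟨i', h'⟩ | ⟨i', h'⟩ | ⟨i', j', t', s', h'⟩ <;> omega

theorem nice {φ : F3} (hne : φ ≠ []) : Nice (VS φ) (KL φ) := by
  have hm : 0 < φ.length := List.length_pos_iff.2 hne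
  constructor
  · rintro ⟨a, b, w⟩ h
    simp only [VS, List.mem_range]
    exact (KW_mem hm (KL_KW h)).1
  · rintro ⟨a, b, w⟩ h
    exact (KW_mem hm (KL_KW h)).2
  · rintro ⟨a, b, w⟩ h ⟨a', b', w'⟩ h' he
    exact KW_func (KL_KW h) (KL_KW h') he
  · rintro ⟨a, b, w⟩ h ⟨a', b', w'⟩ h'
    exact KW_nokey hm (KL_KW h) (KL_KW h')

/-- Non-constant solutions of the constraints. -/
def SolK (φ : F3) : Prop := ∃ f : ℕ → Bool, (∃ a ∈ VS φ, ∃ b ∈ VS φ, f a ≠ f b) ∧
  ∀ q ∈ KL φ, f q.1 = f q.2.1 → f q.2.2 = f q.1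

theorem sol_of_sat {φ : F3} (h : SAT3 φ) : SolK φ := by
  obtain ⟨τ, hτ⟩ := h
  -- the value of an occurrence
  let o : ℕ → ℕ → Bool := fun i t => match φ[i]? with
    | none => true
    | some c => if t = 0 then decide (τ c.1.2 = c.1.1) else if t = 1 then
        decide (τ c.2.1.2 = c.2.1.1) else decide (τ c.2.2.2 = c.2.2.1)
  have o0 : ∀ i c, φ[i]? = some c → o i 0 = decide (τ c.1.2 = c.1.1) := by
    intro i c h
    simp only [o, h]
    rfl
  have o1 : ∀ i c, φ[i]? = some c → o i 1 = decide (τ c.2.1.2 = c.2.1.1) := by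
    intro i c h
    simp only [o, h]
    rfl
  have o2 : ∀ i c, φ[i]? = some c → o i 2 = decide (τ c.2.2.2 = c.2.2.1) := by
    intro i c h
    simp only [o, h]
    rfl
  let x : ℕ → Bool := fun y => if y < 4 * φ.length then
      (if y % 4 = 3 then (if o (y / 4) 0 = true then o (y / 4) 1 else true) else o (y / 4) (y % 4))
    else decide (y < 4 * φ.length + 3)
  let f : ℕ → Bool := fun v => if v = 0 then true else if v = 1 then false else
    if v % 3 = 0 then true else if v % 3 = 1 then false else x ((v - 2) / 3)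
  have f0 : f 0 = true := rfl
  have f1 : f 1 = false := rfl
  have fU : ∀ y, f (3 + 3 * y) = true := by
    intro y
    show (if _ then _ else _) = _
    rw [if_neg (by omega), if_neg (by omega), if_pos (by omega)]
  have fV : ∀ y, f (4 + 3 * y) = false := by
    intro y
    show (if _ then _ else _) = _
    rw [if_neg (by omega), if_neg (by omega), if_neg (by omega), if_pos (by omega)]
  have fX : ∀ y, f (2 + 3 * y) = x y := by
    intro y
    show (if _ then _ else _) = _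
    rw [if_neg (by omega), if_neg (by omega), if_neg (by omega), if_neg (by omega),
      show (2 + 3 * y - 2) / 3 = y by omega]
  have x0 : ∀ i < φ.length, f (2 + 12 * i) = o i 0 := by
    intro i hi
    rw [show 2 + 12 * i = 2 + 3 * (4 * i) by omega, fX]
    simp only [x]
    rw [if_pos (by omega), if_neg (by omega), show 4 * i / 4 = i by omega,
      show 4 * i % 4 = 0 by omega]
  have x1 : ∀ i < φ.length, f (5 + 12 * i) = o i 1 := by
    intro i hi
    rw [show 5 + 12 * i = 2 + 3 * (4 * i + 1) by omega, fX]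
    simp only [x]
    rw [if_pos (by omega), if_neg (by omega), show (4 * i + 1) / 4 = i by omega,
      show (4 * i + 1) % 4 = 1 by omega]
  have x2 : ∀ i < φ.length, f (8 + 12 * i) = o i 2 := by
    intro i hi
    rw [show 8 + 12 * i = 2 + 3 * (4 * i + 2) by omega, fX]
    simp only [x]
    rw [if_pos (by omega), if_neg (by omega), show (4 * i + 2) / 4 = i by omega,
      show (4 * i + 2) % 4 = 2 by omega]
  have x3 : ∀ i < φ.length, f (11 + 12 * i) = (if o i 0 = true then o i 1 else true) := by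
    intro i hi
    rw [show 11 + 12 * i = 2 + 3 * (4 * i + 3) by omega, fX]
    simp only [x]
    rw [if_pos (by omega), if_pos (by omega), show (4 * i + 3) / 4 = i by omega]
  have xs : ∀ y, 4 * φ.length ≤ y → f (2 + 3 * y) = decide (y < 4 * φ.length + 3) := by
    intro y hy
    rw [fX]
    simp only [x]
    rw [if_neg (by omega)]
  refine ⟨f, ⟨0, ?_, 1, ?_, by rw [f0, f1]; simp⟩, ?_⟩
  · simp [VS]
  · simp [VS]
  rintro ⟨a, b, w⟩ hq
  simp only
  unfold KL at hq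
  rw [List.mem_append, List.mem_append, mem_aux, mem_cl, mem_opp] at hq
  simp only [Prod.mk.injEq] at hq
  have e1 : f (12 * φ.length + 2) = true := by
    rw [show 12 * φ.length + 2 = 2 + 3 * (4 * φ.length) by omega, xs _ (by omega)]
    simp
  have e2 : f (12 * φ.length + 5) = true := by
    rw [show 12 * φ.length + 5 = 2 + 3 * (4 * φ.length + 1) by omega, xs _ (by omega)]
    simp
  have e3 : f (12 * φ.length + 8) = true := by
    rw [show 12 * φ.length + 8 = 2 + 3 * (4 * φ.length + 2) by omega, xs _ (by omega)]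
    simp
  have e4 : f (12 * φ.length + 11) = false := by
    rw [show 12 * φ.length + 11 = 2 + 3 * (4 * φ.length + 3) by omega, xs _ (by omega)]
    simp
  have e5 : f (12 * φ.length + 14) = false := by
    rw [show 12 * φ.length + 14 = 2 + 3 * (4 * φ.length + 4) by omega, xs _ (by omega)]
    simp
  rcases hq with (⟨y, hy, h | h | h⟩ | ⟨y, hy, h⟩ | ⟨y, hy, h⟩ | h | h | h | h | h) |
    ⟨i, hi, h | h⟩ | ⟨i, j, v, v', l, l', h1, h2, h3, h4, h5, rfl, rfl, rfl⟩
  · obtain ⟨rfl, rfl, rfl⟩ := h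
    intro _
    rw [f0, fU]
  · obtain ⟨rfl, rfl, rfl⟩ := h
    intro h
    rw [fU, f1] at h
    exact Bool.noConfusion h
  · obtain ⟨rfl, rfl, rfl⟩ := h
    intro h
    rw [fV, f0] at h
    exact Bool.noConfusion h
  · obtain ⟨rfl, rfl, rfl⟩ := h
    intro h
    rw [fU, show 7 + 3 * y = 4 + 3 * (y + 1) by omega, fV] at h
    exact Bool.noConfusion h
  · obtain ⟨rfl, rfl, rfl⟩ := h
    intro h
    rw [fU, show 10 + 3 * y = 4 + 3 * (y + 2) by omega, fV] at h
    exact Bool.noConfusion h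
  · obtain ⟨rfl, rfl, rfl⟩ := h
    intro h
    rw [e1, e4] at h
    exact Bool.noConfusion h
  · obtain ⟨rfl, rfl, rfl⟩ := h
    intro h
    rw [e1, e5] at h
    exact Bool.noConfusion h
  · obtain ⟨rfl, rfl, rfl⟩ := h
    intro h
    rw [e2, e4] at h
    exact Bool.noConfusion h
  · obtain ⟨rfl, rfl, rfl⟩ := h
    intro h
    rw [e2, e5] at h
    exact Bool.noConfusion h
  · obtain ⟨rfl, rfl, rfl⟩ := h
    intro h
    rw [e3, e4] at h
    exact Bool.noConfusion h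
  · obtain ⟨rfl, rfl, rfl⟩ := h
    rw [x0 i hi, x3 i hi, f0]
    by_cases h0 : o i 0 = true
    · intro _
      rw [h0]
    · rw [if_neg h0]
      intro h
      exact h.symm
  · obtain ⟨rfl, rfl, rfl⟩ := h
    rw [x1 i hi, x2 i hi, x3 i hi]
    by_cases h0 : o i 0 = true
    · rw [if_pos h0]
      intro _
      rfl
    · rw [if_neg h0]
      intro h
      have hc : φ[i]? = some φ[i] := List.getElem?_eq_getElem hi
      have hs := hτ _ (List.getElem_mem hi)
      rw [o0 i _ hc] at h0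
      rw [o1 i _ hc, o2 i _ hc] at h
      rw [o1 i _ hc]
      rw [decide_eq_true_eq] at h0
      rcases hs with hs | hs | hs
      · exact absurd hs h0
      · symm
        rw [decide_eq_true_eq]
        exact hs
      · symm
        rw [h, decide_eq_true_eq]
        exact hs
  · -- opposite occurrences
    have val : ∀ i v l, (i, v, l) ∈ occ φ → f v = decide (τ l.2 = l.1) := by
      intro i v l h
      rw [mem_occ] at h
      obtain ⟨c, hc, h⟩ := h
      have hi := (List.getElem?_eq_some_iff.1 hc).1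
      rcases h with ⟨rfl, rfl⟩ | ⟨rfl, rfl⟩ | ⟨rfl, rfl⟩
      · rw [x0 i hi, o0 i c hc]
      · rw [x1 i hi, o1 i c hc]
      · rw [x2 i hi, o2 i c hc]
    rw [val _ _ _ h1, val _ _ _ h2, f1, h4]
    intro h
    revert h h5
    cases τ l'.2 <;> cases l.1 <;> cases l'.1 <;> simp

theorem sat_of_sol {φ : F3} (hd : Distinct3 φ) (h : SolK φ) : SAT3 φ := by
  obtain ⟨f, ⟨a, ha, b, hb, hab⟩, hf⟩ := h
  have hbool : ∀ x y z : Bool, x ≠ z → y ≠ z → x = y := by decide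
  have haux : ∀ q ∈ aux φ.length, f q.1 = f q.2.1 → f q.2.2 = f q.1 := fun q hq =>
    hf q (List.mem_append_left _ hq)
  have hcl : ∀ q ∈ cl φ, f q.1 = f q.2.1 → f q.2.2 = f q.1 := fun q hq =>
    hf q (List.mem_append_right _ (List.mem_append_left _ hq))
  have hopp : ∀ q ∈ opp φ, f q.1 = f q.2.1 → f q.2.2 = f q.1 := fun q hq =>
    hf q (List.mem_append_right _ (List.mem_append_right _ hq))
  have h01 : f 0 ≠ f 1 := by
    intro h01
    -- all the base vertices have the same colour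
    have hX : ∀ y < 4 * φ.length + 5, f (2 + 3 * y) = f 0 := by
      intro y hy
      by_contra hne
      have k1 := haux (3 + 3 * y, 2 + 3 * y, 0) (mem_aux.2 (Or.inl ⟨y, hy, Or.inl rfl⟩))
      have k2 := haux (3 + 3 * y, 1, 4 + 3 * y) (mem_aux.2 (Or.inl ⟨y, hy, Or.inr (Or.inl rfl)⟩))
      have k3 := haux (4 + 3 * y, 0, 2 + 3 * y) (mem_aux.2 (Or.inl ⟨y, hy, Or.inr (Or.inr rfl)⟩))
      simp only at k1 k2 k3
      have k4 : f (3 + 3 * y) = f 0 := by
        by_contra h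
        have h2 := hbool _ _ _ h hne
        exact h (k1 h2).symm
      have k5 : f (4 + 3 * y) = f 0 := (k2 (k4.trans h01)).trans k4
      exact hne ((k3 k5).trans k5)
    have e1 : f (12 * φ.length + 2) = f 0 := by
      rw [show 12 * φ.length + 2 = 2 + 3 * (4 * φ.length) by omega]
      exact hX _ (by omega)
    have e2 : f (12 * φ.length + 5) = f 0 := by
      rw [show 12 * φ.length + 5 = 2 + 3 * (4 * φ.length + 1) by omega]
      exact hX _ (by omega)
    have e3 : f (12 * φ.length + 8) = f 0 := by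
      rw [show 12 * φ.length + 8 = 2 + 3 * (4 * φ.length + 2) by omega]
      exact hX _ (by omega)
    have e4 : f (12 * φ.length + 11) = f 0 := by
      rw [show 12 * φ.length + 11 = 2 + 3 * (4 * φ.length + 3) by omega]
      exact hX _ (by omega)
    have e5 : f (12 * φ.length + 14) = f 0 := by
      rw [show 12 * φ.length + 14 = 2 + 3 * (4 * φ.length + 4) by omega]
      exact hX _ (by omega)
    have hs : ∀ q ∈ [(12 * φ.length + 2, 12 * φ.length + 11, 3),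
        (12 * φ.length + 2, 12 * φ.length + 14, 6), (12 * φ.length + 5, 12 * φ.length + 11, 4),
        (12 * φ.length + 5, 12 * φ.length + 14, 7),
        (12 * φ.length + 8, 12 * φ.length + 11, 10)],
        f q.1 = f q.2.1 → f q.2.2 = f q.1 := fun q hq => haux q
      (mem_aux.2 (Or.inr (Or.inr (Or.inr (by simpa using hq)))))
    have u0 : f 3 = f 0 := (hs (12 * φ.length + 2, 12 * φ.length + 11, 3) (by simp)
      (e1.trans e4.symm)).trans e1
    have u1 : f 6 = f 0 := (hs (12 * φ.length + 2, 12 * φ.length + 14, 6) (by simp)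
      (e1.trans e5.symm)).trans e1
    have v0 : f 4 = f 0 := (hs (12 * φ.length + 5, 12 * φ.length + 11, 4) (by simp)
      (e2.trans e4.symm)).trans e2
    have v1 : f 7 = f 0 := (hs (12 * φ.length + 5, 12 * φ.length + 14, 7) (by simp)
      (e2.trans e5.symm)).trans e2
    have v2 : f 10 = f 0 := (hs (12 * φ.length + 8, 12 * φ.length + 11, 10) (by simp)
      (e3.trans e4.symm)).trans e3
    have hUV : ∀ y, (y < 4 * φ.length + 5 → f (3 + 3 * y) = f 0) ∧
        (y < 4 * φ.length + 5 → f (4 + 3 * y) = f 0) := by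
      intro y
      induction y using Nat.strong_induction_on with
      | _ y ih =>
        have hU : y < 4 * φ.length + 5 → f (3 + 3 * y) = f 0 := by
          intro hy
          rcases Nat.lt_or_ge y 2 with h2 | h2
          · interval_cases y
            · exact u0
            · exact u1
          · have k := haux (3 + 3 * (y - 2), 7 + 3 * (y - 2), 9 + 3 * (y - 2))
              (mem_aux.2 (Or.inr (Or.inl ⟨y - 2, by omega, rfl⟩)))
            simp only at k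
            have i1 := (ih (y - 2) (by omega)).1 (by omega)
            have i2 := (ih (y - 1) (by omega)).2 (by omega)
            rw [show 4 + 3 * (y - 1) = 7 + 3 * (y - 2) by omega] at i2
            rw [show 3 + 3 * y = 9 + 3 * (y - 2) by omega]
            exact (k (i1.trans i2.symm)).trans i1
        refine ⟨hU, ?_⟩
        intro hy
        rcases Nat.lt_or_ge y 3 with h2 | h2
        · interval_cases y
          · exact v0
          · exact v1
          · exact v2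
        · have k := haux (3 + 3 * (y - 3), 10 + 3 * (y - 3), 13 + 3 * (y - 3))
            (mem_aux.2 (Or.inr (Or.inr (Or.inl ⟨y - 3, by omega, rfl⟩))))
          simp only at k
          have i1 := (ih (y - 3) (by omega)).1 (by omega)
          have i2 := (ih (y - 1) (by omega)).2 (by omega)
          rw [show 4 + 3 * (y - 1) = 10 + 3 * (y - 3) by omega] at i2
          rw [show 4 + 3 * y = 13 + 3 * (y - 3) by omega]
          exact (k (i1.trans i2.symm)).trans i1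
    have hall : ∀ v ∈ VS φ, f v = f 0 := by
      intro v hv
      unfold VS at hv
      rw [List.mem_range] at hv
      rcases Nat.lt_or_ge v 2 with h2 | h2
      · interval_cases v
        · rfl
        · exact h01.symm
      · have h3 : v % 3 = 2 ∨ v % 3 = 0 ∨ v % 3 = 1 := by omega
        rcases h3 with h3 | h3 | h3
        · have := hX ((v - 2) / 3) (by omega)
          rwa [show 2 + 3 * ((v - 2) / 3) = v by omega] at this
        · have := (hUV ((v - 3) / 3)).1 (by omega)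
          rwa [show 3 + 3 * ((v - 3) / 3) = v by omega] at this
        · have := (hUV ((v - 4) / 3)).2 (by omega)
          rwa [show 4 + 3 * ((v - 4) / 3) = v by omega] at this
    exact hab ((hall a ha).trans (hall b hb).symm)
  -- in each clause some occurrence is true
  have hclause : ∀ i c, φ[i]? = some c → f (2 + 12 * i) = f 0 ∨ f (5 + 12 * i) = f 0 ∨
      f (8 + 12 * i) = f 0 := by
    intro i c hc
    have hi := (List.getElem?_eq_some_iff.1 hc).1
    have k1 := hcl (2 + 12 * i, 11 + 12 * i, 0) (mem_cl.2 ⟨i, hi, Or.inl rfl⟩)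
    have k2 := hcl (5 + 12 * i, 8 + 12 * i, 11 + 12 * i) (mem_cl.2 ⟨i, hi, Or.inr rfl⟩)
    simp only at k1 k2
    by_contra h
    push Not at h
    obtain ⟨h1, h2, h3⟩ := h
    have k3 := (k2 (hbool _ _ _ h2 h3)).trans (hbool _ _ _ h2 h1)
    exact h1 (k1 k3.symm).symm
  -- opposite occurrences are not both true
  have hno : ∀ i j v w l l', (i, v, l) ∈ occ φ → (j, w, l') ∈ occ φ → i ≠ j → l.2 = l'.2 →
      l.1 ≠ l'.1 → f v = f 0 → f w = f 0 → False := by
    intro i j v w l l' h1 h2 h3 h4 h5 h6 h7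
    have k := hopp (v, w, 1) (mem_opp.2 ⟨i, j, v, w, l, l', h1, h2, h3, h4, h5, rfl⟩)
    simp only at k
    exact h01 ((k (h6.trans h7.symm)).trans h6).symm
  classical
  refine ⟨fun x => decide (∃ i v, (i, v, ((true, x) : Lit ℕ)) ∈ occ φ ∧ f v = f 0), ?_⟩
  intro c hc
  obtain ⟨i, hi, hi2⟩ := List.mem_iff_getElem.1 hc
  have hi3 : φ[i]? = some c := by rw [List.getElem?_eq_getElem hi, hi2]
  have hocc0 : (i, 2 + 12 * i, c.1) ∈ occ φ := mem_occ.2 ⟨c, hi3, Or.inl ⟨rfl, rfl⟩⟩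
  have hocc1 : (i, 5 + 12 * i, c.2.1) ∈ occ φ := mem_occ.2 ⟨c, hi3, Or.inr (Or.inl ⟨rfl, rfl⟩)⟩
  have hocc2 : (i, 8 + 12 * i, c.2.2) ∈ occ φ := mem_occ.2 ⟨c, hi3, Or.inr (Or.inr ⟨rfl, rfl⟩)⟩
  have hlit : ∀ v l, (i, v, l) ∈ occ φ → f v = f 0 →
      decide (∃ i v, (i, v, ((true, l.2) : Lit ℕ)) ∈ occ φ ∧ f v = f 0) = l.1 := by
    rintro v ⟨b, x⟩ h1 h2
    cases b
    · simp only [decide_eq_false_iff_not]
      rintro ⟨j, w, h3, h4⟩
      by_cases hij : i = j
      · subst hij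
        -- the same clause: the variables are different
        rw [mem_occ] at h1 h3
        obtain ⟨c1, hc1, h1⟩ := h1
        obtain ⟨c2, hc2, h3⟩ := h3
        rw [hi3] at hc1 hc2
        obtain rfl := Option.some.inj hc1
        obtain rfl := Option.some.inj hc2
        obtain ⟨d1, d2, d3⟩ := hd c hc
        have key : ∀ l l' : Lit ℕ, (false, x) = l → (true, x) = l' → l ≠ l' ∧ l.2 = l'.2 := by
          rintro l l' rfl rfl
          simp
        rcases h1 with ⟨-, h1⟩ | ⟨-, h1⟩ | ⟨-, h1⟩ <;> rcases h3 with ⟨-, h3⟩ | ⟨-, h3⟩ | ⟨-, h3⟩ <;>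
          first
          | exact (key _ _ h1 h3).1 rfl
          | exact d1 (key _ _ h1 h3).2
          | exact d2 (key _ _ h1 h3).2
          | exact d3 (key _ _ h1 h3).2
          | exact d1 (key _ _ h1 h3).2.symm
          | exact d2 (key _ _ h1 h3).2.symm
          | exact d3 (key _ _ h1 h3).2.symm
      · exact hno i j v w _ _ h1 h3 hij rfl (by simp) h2 h4
    · simp only [decide_eq_true_eq]
      exact ⟨i, v, h1, h2⟩
  rcases hclause i c hi3 with h | h | h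
  · exact Or.inl (hlit _ _ hocc0 h)
  · exact Or.inr (Or.inl (hlit _ _ hocc1 h))
  · exact Or.inr (Or.inr (hlit _ _ hocc2 h))

/-- The reduction. -/
def red (φ : F3) : Inst := inst (VS φ) (KL φ)

theorem red_iff {φ : F3} (hd : Distinct3 φ) (hne : φ ≠ []) :
    SAT3 φ ↔ HasReduction (paths (red φ)) :=
  ⟨fun h => (reduction_iff (nice hne)).2 (sol_of_sat h),
    fun h => sat_of_sol hd ((reduction_iff (nice hne)).1 h)⟩

end Pool.Agent.Q227.PSy
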